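import Pool.Agent.W4helper65.CY.C

set_option autoImplicit false

/-!
# Project CY, piece F2: no zeros of order `n` with `m4 ≤ n < c`
-/

namespace Pool.Agent.W2helper24.CY

open Polynomial Finset Pool.Agent.W2helper94.CY Pool.Agent.W4helper65.CY

theorem sines_mid (t y1 y2 y3 y4 y5 : ℝ) (ht4 : t ≤ y4) (h4 : y4 ≤ Real.pi)
    (h12 : y1 ≤ y2) (h23 : y2 ≤ y3) (h35 : y3 < y5) (h54 : y5 ≤ y4) (h412 : y4 - t < y1 + y2)
    (h1 : -t < y1) (ht : 0 ≤ t) (hs : y1 + y2 + y3 + t = y4 + y5) :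
    Real.sin y4 + Real.sin y5 < Real.sin y1 + Real.sin y2 + Real.sin y3 + Real.sin t := by
  rcases lt_or_ge y1 0 with hy | hy
  · have n1 : Real.sin y1 = -Real.sin (-y1) := by rw [Real.sin_neg]; ring
    have k1 := transfer_lt (A := y5) (B := y4 - t + -y1) (C := y2) (D := y3) (by linarith)
      (by linarith) (by linarith) (by linarith) (by linarith)
    have k2 := transfer (A := y4) (B := -y1) (C := t) (D := y4 - t + -y1) (by ring)
      (by linarith) (by linarith) (by linarith) h4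
    linarith
  · have k0 := sub_add (a := t) (b := y4 - t) ht (by linarith) (by linarith)
    rw [add_sub_cancel] at k0
    rcases le_or_gt y5 (y2 + y3) with h | h
    · have k1 := transfer_lt (A := y5) (B := y2 + y3 - y5) (C := y2) (D := y3) (by ring)
        (by linarith) (by linarith) (by linarith) (by linarith)
      have k2 := sub_add (a := y1) (b := y2 + y3 - y5) hy (by linarith) (by linarith)
      have e : y1 + (y2 + y3 - y5) = y4 - t := by linarith
      rw [e] at k2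
      linarith
    · have k1 := sub_add (a := y2) (b := y3) (by linarith) (by linarith) (by linarith)
      have k2 := transfer_lt (A := y5) (B := y4 - t) (C := y2 + y3) (D := y1) (by linarith)
        (by linarith) (by linarith) (by linarith) (by linarith)
      linarith

theorem no_mid_order (m1 m2 m3 m4 m5 c : ℕ) (h0 : 0 < m1) (h12 : m1 ≤ m2) (h23 : m2 ≤ m3)
    (h34 : m3 ≤ m4) (h45 : m4 ≤ m5) (h35 : m3 + m5 < c) (h44 : c ≤ 2 * m4)
    (hs : m1 + m2 + m3 + m4 + m5 = 2 * c) (n : ℕ) (hn : m4 ≤ n) (hnc : n < c) :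
    ¬ cyclotomic n ℤ ∣ numer5 m1 m2 m3 m4 m5 c := by
  intro hdvd
  have hn0 : n ≠ 0 := by omega
  have hprim := Complex.isPrimitiveRoot_exp n hn0
  set ζ : ℂ := Complex.exp (2 * Real.pi * Complex.I / n) with hζ
  have hroot : aeval ζ (numer5 m1 m2 m3 m4 m5 c) = 0 := by
    obtain ⟨q, hq⟩ := hdvd
    have h1 : aeval ζ (cyclotomic n ℤ) = 0 := by
      have := hprim.isRoot_cyclotomic (Nat.pos_of_ne_zero hn0)
      rw [IsRoot.def, ← map_cyclotomic n (algebraMap ℤ ℂ), eval_map_algebraMap] at this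
      exact this
    rw [hq, map_mul, h1, zero_mul]
  have hnpos : (0 : ℝ) < n := by
    have : 0 < n := Nat.pos_of_ne_zero hn0
    exact_mod_cast this
  set t : ℝ := 2 * Real.pi / n with ht
  set T : ℝ := c * t / 2 with hT
  have hpi := Real.pi_pos
  have ht0 : 0 < t := by positivity
  have hnt : (n : ℝ) * t = 2 * Real.pi := by
    rw [ht]
    field_simp
  have hpow : ∀ k : ℕ, ζ ^ k * Complex.exp (((-T : ℝ) : ℂ) * Complex.I) =
      Complex.exp (((k * t - T : ℝ) : ℂ) * Complex.I) := by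
    intro k
    rw [hζ, ← Complex.exp_nat_mul, ← Complex.exp_add]
    congr 1
    rw [ht]
    push_cast
    ring
  have him : ∀ k : ℕ, (ζ ^ k * Complex.exp (((-T : ℝ) : ℂ) * Complex.I)).im =
      Real.sin (k * t - T) := by
    intro k
    rw [hpow, Complex.exp_ofReal_mul_I_im]
  have e0 : aeval ζ (numer5 m1 m2 m3 m4 m5 c) * Complex.exp (((-T : ℝ) : ℂ) * Complex.I) =
      ζ ^ 0 * Complex.exp (((-T : ℝ) : ℂ) * Complex.I) -
      (ζ ^ m1 * Complex.exp (((-T : ℝ) : ℂ) * Complex.I) +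
        ζ ^ m2 * Complex.exp (((-T : ℝ) : ℂ) * Complex.I) +
        ζ ^ m3 * Complex.exp (((-T : ℝ) : ℂ) * Complex.I) +
        ζ ^ m4 * Complex.exp (((-T : ℝ) : ℂ) * Complex.I) +
        ζ ^ m5 * Complex.exp (((-T : ℝ) : ℂ) * Complex.I)) +
      (ζ ^ (c - m1) * Complex.exp (((-T : ℝ) : ℂ) * Complex.I) +
        ζ ^ (c - m2) * Complex.exp (((-T : ℝ) : ℂ) * Complex.I) +
        ζ ^ (c - m3) * Complex.exp (((-T : ℝ) : ℂ) * Complex.I) +
        ζ ^ (c - m4) * Complex.exp (((-T : ℝ) : ℂ) * Complex.I) +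
        ζ ^ (c - m5) * Complex.exp (((-T : ℝ) : ℂ) * Complex.I)) -
      ζ ^ c * Complex.exp (((-T : ℝ) : ℂ) * Complex.I) := by
    simp only [numer5, map_sub, map_add, map_one, map_pow, aeval_X, pow_zero]
    ring
  rw [hroot, zero_mul] at e0
  have e1 := congrArg Complex.im e0
  simp only [Complex.sub_im, Complex.add_im, him, Complex.zero_im] at e1
  have key : ∀ m : ℕ, m ≤ c → Real.sin (m * t - T) = -Real.sin (T - m * t) ∧
      Real.sin (((c - m : ℕ) : ℝ) * t - T) = Real.sin (T - m * t) := by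
    intro m hm
    constructor
    · rw [← Real.sin_neg]
      congr 1
      ring
    · congr 1
      rw [Nat.cast_sub hm, hT]
      ring
  have c1 := key m1 (by omega)
  have c2 := key m2 (by omega)
  have c3 := key m3 (by omega)
  have c4 := key m4 (by omega)
  have c5 := key m5 (by omega)
  rw [c1.1, c1.2, c2.1, c2.2, c3.1, c3.2, c4.1, c4.2, c5.1, c5.2] at e1
  have e2 : Real.sin (((0 : ℕ) : ℝ) * t - T) = -Real.sin T := by
    rw [← Real.sin_neg]
    congr 1
    push_cast
    ring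
  have e3 : Real.sin ((c : ℝ) * t - T) = Real.sin T := by
    congr 1
    rw [hT]
    ring
  rw [e2, e3] at e1
  -- `T = π + τ`
  set τ : ℝ := T - Real.pi with hτ
  have s0 : Real.sin T = -Real.sin τ := by
    rw [hτ, Real.sin_sub_pi, neg_neg]
  have slo : ∀ m : ℕ, Real.sin (T - m * t) = Real.sin (m * t - τ) := by
    intro m
    rw [← Real.sin_pi_sub (T - m * t)]
    congr 1
    rw [hτ]
    ring
  have shi : ∀ m : ℕ, m ≤ c →
      Real.sin (T - m * t) = -Real.sin (((c - m : ℕ) : ℝ) * t - τ) := by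
    intro m hm
    rw [← Real.sin_sub_pi]
    congr 1
    rw [Nat.cast_sub hm, hτ, hT]
    ring
  rw [s0, slo m1, slo m2, slo m3, shi m4 (by omega), shi m5 (by omega)] at e1
  have hsR : (m1 : ℝ) + m2 + m3 + m4 + m5 = 2 * c := by exact_mod_cast hs
  have cast4 : ((c - m4 : ℕ) : ℝ) = c - m4 := Nat.cast_sub (by omega)
  have cast5 : ((c - m5 : ℕ) : ℝ) = c - m5 := Nat.cast_sub (by omega)
  have mono : ∀ a b : ℕ, a ≤ b → a * t - τ ≤ b * t - τ := by
    intro a b hab
    have : (a : ℝ) ≤ b := by exact_mod_cast hab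
    have := mul_le_mul_of_nonneg_right this ht0.le
    linarith
  have mono' : ∀ a b : ℕ, a < b → a * t - τ < b * t - τ := by
    intro a b hab
    have : (a : ℝ) < b := by exact_mod_cast hab
    have := mul_lt_mul_of_pos_right this ht0
    linarith
  have hncR : (n : ℝ) ≤ c := by exact_mod_cast hnc.le
  have hnR : (m4 : ℝ) ≤ n := by exact_mod_cast hn
  have h44R : (c : ℝ) ≤ 2 * m4 := by exact_mod_cast h44
  have h0R : (0 : ℝ) < m1 := by exact_mod_cast h0
  have h35R : (m3 : ℝ) + m5 < c := by exact_mod_cast h35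
  have hτe : τ = (c - n) * t / 2 := by
    rw [hτ, hT]
    linarith
  have p1 : (c - n : ℝ) * t ≤ (c - m4) * t :=
    mul_le_mul_of_nonneg_right (by linarith) ht0.le
  have p2 : 0 ≤ (2 * m4 - c : ℝ) * t := mul_nonneg (by linarith) ht0.le
  have p3 : (c - m4 : ℝ) * t < (m1 + m2) * t :=
    mul_lt_mul_of_pos_right (by linarith) ht0
  have p4 : 0 < (m1 : ℝ) * t := mul_pos h0R ht0
  have p5 : 0 ≤ (c - n : ℝ) * t := mul_nonneg (by linarith) ht0.le
  have q1 : τ ≤ ((c - m4 : ℕ) : ℝ) * t - τ := by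
    rw [cast4]
    linarith
  have q2 : ((c - m4 : ℕ) : ℝ) * t - τ ≤ Real.pi := by
    rw [cast4, hτ, hT]
    linarith
  have q3 : ((c - m4 : ℕ) : ℝ) * t - τ - τ < (m1 * t - τ) + (m2 * t - τ) := by
    rw [cast4]
    linarith
  have q6 : (m1 * t - τ) + (m2 * t - τ) + (m3 * t - τ) + τ =
      (((c - m4 : ℕ) : ℝ) * t - τ) + (((c - m5 : ℕ) : ℝ) * t - τ) := by
    rw [cast4, cast5]
    linear_combination t * hsR
  have h := sines_mid τ (m1 * t - τ) (m2 * t - τ) (m3 * t - τ) (((c - m4 : ℕ) : ℝ) * t - τ)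
    (((c - m5 : ℕ) : ℝ) * t - τ) q1 q2 (mono _ _ h12) (mono _ _ h23) (mono' _ _ (by omega))
    (mono _ _ (by omega)) q3 (by linarith) (by linarith) q6
  linarith

end Pool.Agent.W2helper24.CY
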